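import Mathlib

/-! Embeddings of the Cantor space into the line which realise prescribed order patterns, and
homogeneity of subsets closed under finite changes. -/

namespace Pool.Agent.R866.ENT

open Filter Topology Set

/-- The Cantor space. -/
abbrev X : Type := ℕ → Bool

/-- Finite data: a finite length and a Boolean function of that many bits. -/
abbrev Task : Type := Σ m : ℕ, ((Fin m → Bool) → Bool)

theorem exists_T : ∃ T : ℕ → Task, ∀ θ : Task, ∀ N : ℕ, ∃ n, N ≤ n ∧ T n = θ := by
  obtain ⟨s, hs⟩ := exists_surjective_nat (Task × ℕ)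
  refine ⟨fun n => (s n).1, fun θ N => ?_⟩
  choose g hg using fun j : ℕ => hs (θ, j)
  have hinj : Function.Injective g := by
    intro a b hab
    have := (hg a).symm.trans ((congrArg s hab).trans (hg b))
    simpa using this
  have hinf : (range g).Infinite := infinite_range_of_injective hinj
  obtain ⟨n, ⟨j, rfl⟩, hn⟩ := hinf.exists_gt N
  exact ⟨g j, hn.le, congrArg Prod.fst (hg j)⟩

/-- The fixed enumeration of tasks. -/
noncomputable def T : ℕ → Task := exists_T.choose

theorem T_spec (θ : Task) (N : ℕ) : ∃ n, N ≤ n ∧ T n = θ := exists_T.choose_spec θ N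

/-- The twist at place `n`. -/
noncomputable def sg (x : X) (n : ℕ) : Bool :=
  if (T n).1 ≤ n then (T n).2 (fun i => x i) else false

theorem sg_congr {x y : X} {n : ℕ} (h : ∀ i < n, x i = y i) : sg x n = sg y n := by
  unfold sg
  by_cases hm : (T n).1 ≤ n
  · rw [if_pos hm, if_pos hm]
    have : (fun i : Fin (T n).1 => x i) = fun i : Fin (T n).1 => y i :=
      funext fun i => h i (lt_of_lt_of_le i.2 hm)
    rw [this]
  · rw [if_neg hm, if_neg hm]

/-- The twisted sequence. -/
noncomputable def tw (x : X) : X := fun n => xor (x n) (sg x n)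

/-- The embedding of the Cantor space into the reals. -/
noncomputable def emb (x : X) : ℝ := Cardinal.cantorFunction (1 / 3) (tw x)

theorem tw_congr {x y : X} {n : ℕ} (h : ∀ i < n, x i = y i) : ∀ i < n, tw x i = tw y i := by
  intro i hi
  unfold tw
  rw [h i hi, sg_congr (fun j hj => h j (hj.trans hi))]

theorem tw_ne {x y : X} {n : ℕ} (h : ∀ i < n, x i = y i) (hn : x n ≠ y n) : tw x n ≠ tw y n := by
  unfold tw
  rw [sg_congr h]
  intro hc
  apply hn
  cases hx : x n <;> cases hy : y n <;> cases hs : sg y n <;> simp_all

theorem emb_lt_iff {x y : X} {n : ℕ} (h : ∀ i < n, x i = y i) (hn : x n ≠ y n) :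
    emb x < emb y ↔ tw x n = false := by
  have h1 := tw_congr h
  have h2 := tw_ne h hn
  constructor
  · intro hlt
    by_contra hc
    have hx : tw x n = true := by simpa using hc
    have hy : tw y n = false := by
      cases hy : tw y n
      · rfl
      · exact absurd (hx.trans hy.symm) h2
    have := Cardinal.increasing_cantorFunction (c := 1 / 3) (by norm_num) (by norm_num)
      (fun k hk => (h1 k hk).symm) hy hx
    exact lt_asymm hlt this
  · intro hx
    have hy : tw y n = true := by
      cases hy : tw y n
      · exact absurd (hx.trans hy.symm) h2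
      · rfl
    exact Cardinal.increasing_cantorFunction (c := 1 / 3) (by norm_num) (by norm_num) h1 hx hy

theorem exists_firstDiff {x y : X} (h : x ≠ y) :
    ∃ n, (∀ i < n, x i = y i) ∧ x n ≠ y n := by
  classical
  have : ∃ n, x n ≠ y n := by
    by_contra hc
    push Not at hc
    exact h (funext hc)
  exact ⟨Nat.find this, fun i hi => by simpa using Nat.find_min this hi, Nat.find_spec this⟩

theorem emb_injective : Function.Injective emb := by
  intro x y hxy
  by_contra hne
  obtain ⟨n, h1, h2⟩ := exists_firstDiff hne
  have a := emb_lt_iff h1 h2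
  have b := emb_lt_iff (x := y) (y := x) (fun i hi => (h1 i hi).symm) (Ne.symm h2)
  have c := tw_ne h1 h2
  rw [hxy] at a
  rw [hxy] at b
  simp only [lt_irrefl, false_iff, Bool.not_eq_false] at a b
  exact c (a.trans b.symm)

/-- A function depending locally on finitely many coordinates is continuous. -/
theorem continuous_of_fin {Y : Type*} [TopologicalSpace Y] (n : ℕ) (g : X → Y)
    (hg : ∀ x x' : X, (∀ i < n, x' i = x i) → g x' = g x) : Continuous g := by
  rw [continuous_iff_continuousAt]
  intro x
  have hev : ∀ᶠ x' in 𝓝 x, g x' = g x := by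
    have : PiNat.cylinder x n ∈ 𝓝 x :=
      (PiNat.isOpen_cylinder _ x n).mem_nhds (PiNat.self_mem_cylinder x n)
    filter_upwards [this] with x' hx'
    exact hg x x' (fun i hi => hx' i hi)
  exact (tendsto_congr' hev).mpr tendsto_const_nhds

theorem continuous_tw : Continuous tw := by
  refine continuous_pi fun n => ?_
  refine continuous_of_fin (n + 1) _ fun x x' h => ?_
  exact tw_congr (n := n + 1) h n (Nat.lt_succ_self n)

theorem continuous_cantor : Continuous (Cardinal.cantorFunction (1 / 3)) := by
  unfold Cardinal.cantorFunction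
  refine continuous_tsum (u := fun n => (1 / 3 : ℝ) ^ n) ?_ ?_ ?_
  · intro n
    refine continuous_of_fin (n + 1) _ fun x x' h => ?_
    exact Cardinal.cantorFunctionAux_eq (h n (Nat.lt_succ_self n))
  · exact summable_geometric_of_lt_one (by norm_num) (by norm_num)
  · intro n x
    cases hx : x n
    · rw [Cardinal.cantorFunctionAux_false hx]
      simp
    · rw [Cardinal.cantorFunctionAux_true hx]
      simp

theorem continuous_emb : Continuous emb := continuous_cantor.comp continuous_tw

theorem isEmbedding_emb : IsEmbedding emb :=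
  (continuous_emb.isClosedEmbedding emb_injective).isEmbedding

/-- The homeomorphism of the Cantor space moving `x` to `y`, changing every other point only
finitely often. -/
noncomputable def hh (x y z : X) : X := fun j =>
  haveI := Classical.propDecidable (∀ i < j, z i = x i)
  if (∀ i < j, z i = x i) then xor (z j) (xor (x j) (y j)) else z j

theorem hh_pos {x y z : X} {j : ℕ} (h : ∀ i < j, z i = x i) :
    hh x y z j = xor (z j) (xor (x j) (y j)) := by
  unfold hh; rw [if_pos h]

theorem hh_neg {x y z : X} {j : ℕ} (h : ¬ ∀ i < j, z i = x i) :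
    hh x y z j = z j := by
  unfold hh; rw [if_neg h]

theorem hh_agree (x y z : X) (j : ℕ) :
    (∀ i < j, hh x y z i = y i) ↔ (∀ i < j, z i = x i) := by
  induction j with
  | zero => simp
  | succ j ih =>
    constructor
    · intro h i hi
      have h0 : ∀ i < j, z i = x i := ih.mp fun i hi => h i (hi.trans (Nat.lt_succ_self j))
      rcases Nat.lt_succ_iff_lt_or_eq.mp hi with hi | rfl
      · exact h0 i hi
      · have := h i (Nat.lt_succ_self i)
        rw [hh_pos h0] at this
        cases hz : z i <;> cases hx : x i <;> cases hy : y i <;> simp_all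
    · intro h i hi
      have h0 : ∀ i < j, z i = x i := fun i hi => h i (hi.trans (Nat.lt_succ_self j))
      rcases Nat.lt_succ_iff_lt_or_eq.mp hi with hi | rfl
      · exact ih.mpr h0 i hi
      · rw [hh_pos h0, h i (Nat.lt_succ_self i)]
        cases hx : x i <;> cases hy : y i <;> rfl

theorem hh_hh (x y z : X) : hh y x (hh x y z) = z := by
  funext j
  by_cases h : ∀ i < j, z i = x i
  · rw [hh_pos ((hh_agree x y z j).mpr h), hh_pos h]
    cases z j <;> cases x j <;> cases y j <;> rfl
  · rw [hh_neg (fun hc => h ((hh_agree x y z j).mp hc)), hh_neg h]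

theorem hh_self (x y : X) : hh x y x = y := by
  funext j
  rw [hh_pos (fun i _ => rfl)]
  cases x j <;> cases y j <;> rfl

theorem hh_eventually {x z : X} (y : X) (h : z ≠ x) : hh x y z =ᶠ[atTop] z := by
  obtain ⟨n, _, hn⟩ := exists_firstDiff h
  filter_upwards [eventually_gt_atTop n] with j hj
  exact hh_neg (fun hc => hn (hc n hj))

theorem continuous_hh (x y : X) : Continuous (hh x y) := by
  refine continuous_pi fun n => ?_
  refine continuous_of_fin (n + 1) _ fun z z' h => ?_
  have hn := h n (Nat.lt_succ_self n)
  by_cases hz : ∀ i < n, z i = x i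
  · rw [hh_pos hz, hh_pos (fun i hi => (h i (hi.trans (Nat.lt_succ_self n))).trans (hz i hi)), hn]
  · rw [hh_neg hz, hh_neg (fun hc => hz fun i hi =>
      (h i (hi.trans (Nat.lt_succ_self n))).symm.trans (hc i hi)), hn]

/-- Subsets of the Cantor space closed under finite changes are homogeneous. -/
theorem homogeneous_of_closed {A : Set X} (hA : ∀ x ∈ A, ∀ y : X, y =ᶠ[atTop] x → y ∈ A)
    (x y : A) : ∃ h : A ≃ₜ A, h x = y := by
  have key : ∀ x y : A, ∀ z : A, hh x.1 y.1 z.1 ∈ A := by
    intro x y z
    by_cases h : z.1 = x.1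
    · rw [h, hh_self]; exact y.2
    · exact hA z.1 z.2 _ (hh_eventually y.1 h)
  refine ⟨{ toFun := fun z => ⟨hh x.1 y.1 z.1, key x y z⟩
            invFun := fun z => ⟨hh y.1 x.1 z.1, key y x z⟩
            left_inv := fun z => Subtype.ext (hh_hh _ _ _)
            right_inv := fun z => Subtype.ext (hh_hh _ _ _)
            continuous_toFun := ((continuous_hh _ _).comp continuous_subtype_val).subtype_mk _
            continuous_invFun := ((continuous_hh _ _).comp continuous_subtype_val).subtype_mk _ }, ?_⟩
  exact Subtype.ext (hh_self _ _)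

theorem homogeneous_image {A : Set X} (hA : ∀ x ∈ A, ∀ y : X, y =ᶠ[atTop] x → y ∈ A)
    (x y : (emb '' A : Set ℝ)) : ∃ h : (emb '' A : Set ℝ) ≃ₜ (emb '' A : Set ℝ), h x = y := by
  let φ : A ≃ₜ (emb '' A : Set ℝ) := isEmbedding_emb.homeomorphImage A
  obtain ⟨h, hh⟩ := homogeneous_of_closed hA (φ.symm x) (φ.symm y)
  refine ⟨(φ.symm.trans h).trans φ, ?_⟩
  simp [hh]

end Pool.Agent.R866.ENT
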