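import Pool.Agent.R866.ENT.Emb

/-! Under CH: generic sequences of length omega one in the Cantor space. -/

namespace Pool.Agent.R866.ENT

open Filter Topology Set

/-- The index type, a well order of type omega one. -/
abbrev I : Type := (Cardinal.aleph 1).ord.ToType

theorem mk_I : Cardinal.mk I = Cardinal.aleph 1 := Cardinal.mk_ord_toType _

theorem countable_Iio (a : I) : (Iio a).Countable := by
  have h := Cardinal.mk_Iio_lt a (by rw [mk_I, Ordinal.type_toType])
  rw [mk_I, Cardinal.lt_aleph_one_iff] at h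
  exact Cardinal.le_aleph0_iff_set_countable.mp h

theorem countable_Iic (a : I) : (Iic a).Countable := by
  rw [← Iio_insert]
  exact (countable_Iio a).insert a

theorem not_countable_univ : ¬ (univ : Set I).Countable := by
  rw [← Cardinal.le_aleph0_iff_set_countable, Cardinal.mk_univ, mk_I, not_le]
  exact Cardinal.aleph0_lt_aleph_one

theorem exists_upper {S : Set I} (hS : S.Countable) : ∃ a : I, ∀ s ∈ S, s < a := by
  by_contra hc
  push Not at hc
  apply not_countable_univ
  refine ((hS.biUnion fun s _ => countable_Iic s)).mono ?_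
  intro a _
  obtain ⟨s, hs, hsa⟩ := hc a
  exact mem_biUnion hs hsa

/-- Subsets of finite powers of the Cantor space. -/
abbrev PS : Type := Σ m : ℕ, Set (Fin m → X)

/-- The section at a value of the first coordinate. -/
def sec : PS → X → PS
  | ⟨0, N⟩, _ => ⟨0, N⟩
  | ⟨m + 1, N⟩, x => ⟨m, {y | (Fin.cons x y : Fin (m + 1) → X) ∈ N}⟩

/-- Closed with empty interior. -/
def Nd (K : PS) : Prop := IsClosed K.2 ∧ interior K.2 = ∅

/-- The points at which the section is not nowhere dense (for nowhere dense sets). -/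
def bad (K : PS) : Set X := {x | Nd K ∧ ¬ Nd (sec K x)}

theorem continuous_cons_left {m : ℕ} (y : Fin m → X) :
    Continuous fun x : X => (Fin.cons x y : Fin (m + 1) → X) := by
  refine continuous_pi fun i => ?_
  refine Fin.cases ?_ (fun i => ?_) i
  · exact continuous_id
  · exact continuous_const

theorem continuous_cons_right {m : ℕ} (x : X) :
    Continuous fun y : Fin m → X => (Fin.cons x y : Fin (m + 1) → X) := by
  refine continuous_pi fun i => ?_
  refine Fin.cases ?_ (fun i => ?_) i
  · exact continuous_const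
  · exact continuous_apply i

theorem isClosed_sec {K : PS} (hK : IsClosed K.2) (x : X) : IsClosed (sec K x).2 := by
  rcases K with ⟨_ | m, N⟩
  · exact hK
  · exact hK.preimage (continuous_cons_right x)

theorem isMeagre_bad (K : PS) : IsMeagre (bad K) := by
  by_cases hK : Nd K
  swap
  · have : bad K = ∅ := by
      ext x; simp [bad, hK]
    rw [this]; exact IsMeagre.empty
  rcases K with ⟨_ | m, N⟩
  · have : bad ⟨0, N⟩ = ∅ := by
      ext x
      simp only [bad, mem_ofPred_eq, mem_empty_iff_false, iff_false, not_and, not_not]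
      intro h; exact h
    rw [this]; exact IsMeagre.empty
  obtain ⟨hcl, hint⟩ := hK
  simp only at hcl hint
  set B := TopologicalSpace.countableBasis (Fin m → X) with hB
  have hBc : B.Countable := TopologicalSpace.countable_countableBasis _
  have hsub : bad ⟨m + 1, N⟩ ⊆ ⋃ V ∈ {V ∈ B | V.Nonempty},
      {x : X | ∀ y ∈ V, (Fin.cons x y : Fin (m + 1) → X) ∈ N} := by
    rintro x ⟨_, hx⟩
    have h1 : interior {y : Fin m → X | (Fin.cons x y : Fin (m + 1) → X) ∈ N} ≠ ∅ := by
      intro h0
      exact hx ⟨isClosed_sec (K := ⟨m + 1, N⟩) hcl x, h0⟩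
    obtain ⟨y, hy⟩ := nonempty_iff_ne_empty.mpr h1
    obtain ⟨V, hV, hyV, hVs⟩ := (TopologicalSpace.isBasis_countableBasis
      (Fin m → X)).exists_subset_of_mem_open hy isOpen_interior
    refine mem_biUnion (x := V) ⟨hV, ⟨y, hyV⟩⟩ ?_
    intro y' hy'
    have h3 : y' ∈ {y : Fin m → X | (Fin.cons x y : Fin (m + 1) → X) ∈ N} :=
      interior_subset (hVs hy')
    exact h3
  refine IsMeagre.mono hsub (isMeagre_biUnion (hBc.mono fun V hV => hV.1) ?_)
  rintro V ⟨hV, hVne⟩
  apply IsNowhereDense.isMeagre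
  have hclZ : IsClosed {x : X | ∀ y ∈ V, (Fin.cons x y : Fin (m + 1) → X) ∈ N} := by
    have : {x : X | ∀ y ∈ V, (Fin.cons x y : Fin (m + 1) → X) ∈ N}
        = ⋂ y ∈ V, (fun x : X => (Fin.cons x y : Fin (m + 1) → X)) ⁻¹' N := by
      ext x; simp
    rw [this]
    exact isClosed_biInter fun y _ => hcl.preimage (continuous_cons_left y)
  rw [hclZ.isNowhereDense_iff]
  by_contra hne
  obtain ⟨x0, hx0⟩ := nonempty_iff_ne_empty.mpr hne
  obtain ⟨y0, hy0⟩ := hVne
  have hVo : IsOpen V := TopologicalSpace.isOpen_of_mem_countableBasis hV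
  set U := interior {x : X | ∀ y ∈ V, (Fin.cons x y : Fin (m + 1) → X) ∈ N} with hU
  set W : Set (Fin (m + 1) → X) := {z | z 0 ∈ U ∧ Fin.tail z ∈ V} with hW
  have hWo : IsOpen W := by
    refine IsOpen.inter ((isOpen_interior).preimage (continuous_apply 0)) (hVo.preimage ?_)
    exact continuous_pi fun i => continuous_apply i.succ
  have hWN : W ⊆ N := by
    rintro z ⟨hz0, hzV⟩
    have := interior_subset hz0 _ hzV
    rwa [Fin.cons_self_tail] at this
  have hWne : (Fin.cons x0 y0 : Fin (m + 1) → X) ∈ W := by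
    refine ⟨by simpa using hx0, by simpa using hy0⟩
  have : (Fin.cons x0 y0 : Fin (m + 1) → X) ∈ interior N :=
    (interior_maximal hWN hWo) hWne
  rw [hint] at this
  exact this

theorem mk_closed_le {Y : Type} [TopologicalSpace Y] [SecondCountableTopology Y] :
    Cardinal.mk {N : Set Y // IsClosed N} ≤ Cardinal.continuum := by
  classical
  set B := TopologicalSpace.countableBasis Y with hB
  have hBc : B.Countable := TopologicalSpace.countable_countableBasis _
  let g : {N : Set Y // IsClosed N} → Set B := fun N => {V | Disjoint V.1 N.1}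
  have hg : Function.Injective g := by
    have key : ∀ N : {N : Set Y // IsClosed N}, ∀ y, y ∉ N.1 ↔ ∃ V ∈ g N, y ∈ V.1 := by
      intro N y
      constructor
      · intro hy
        obtain ⟨V, hV, hyV, hVs⟩ := (TopologicalSpace.isBasis_countableBasis
          Y).exists_subset_of_mem_open (show y ∈ (N.1)ᶜ from hy) N.2.isOpen_compl
        exact ⟨⟨V, hV⟩, disjoint_left.mpr fun z hz hz' => hVs hz hz', hyV⟩
      · rintro ⟨V, hV, hyV⟩ hy
        exact disjoint_left.mp hV hyV hy
    intro N N' h
    apply Subtype.ext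
    ext y
    have h1 := key N y
    have h2 := key N' y
    rw [h] at h1
    exact not_iff_not.mp (h1.trans h2.symm)
  refine (Cardinal.mk_le_of_injective hg).trans ?_
  rw [Cardinal.mk_set, ← Cardinal.two_power_aleph0]
  exact Cardinal.power_le_power_left two_ne_zero (Cardinal.mk_le_aleph0_iff.mpr hBc)

/-- Closed subsets of finite powers. -/
abbrev CS : Type := Σ m : ℕ, {N : Set (Fin m → X) // IsClosed N}

theorem exists_nu (CH : Cardinal.continuum.{0} = Cardinal.aleph 1) :
    ∃ ν : I → CS, Function.Surjective ν := by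
  have h1 : Cardinal.mk CS ≤ Cardinal.continuum := by
    rw [Cardinal.mk_sigma]
    refine (Cardinal.sum_le_mk_mul_iSup _).trans ?_
    refine (mul_le_mul' (Cardinal.mk_le_aleph0.trans Cardinal.aleph0_le_continuum)
      (ciSup_le' fun m => mk_closed_le)).trans ?_
    rw [Cardinal.continuum_mul_self]
  have h2 : Cardinal.mk CS ≤ Cardinal.mk I := by rw [mk_I, ← CH]; exact h1
  obtain ⟨f⟩ := Cardinal.le_def _ _ |>.mp h2
  have : Nonempty CS := ⟨⟨0, ⟨∅, isClosed_empty⟩⟩⟩
  exact ⟨Function.invFun f, Function.invFun_surjective f.injective⟩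

/-- The underlying set of a closed set. -/
def toPS (K : CS) : PS := ⟨K.1, K.2.1⟩

theorem exists_gen {C : Set X} (hC : C ∈ residual X) (ν : I → CS) :
    ∃ e : I → X, (∀ a, e a ∈ C) ∧
      ∀ a ξ : I, ξ < a → ∀ l : List I, (∀ b ∈ l, b < a) →
        e a ∉ bad ((l.map e).foldl sec (toPS (ν ξ))) := by
  classical
  have hex : ∀ (a : I) (ih : ∀ b : I, b < a → X),
      ∃ x ∈ C, ∀ (ξ : Iio a) (l : List (Iio a)),
        x ∉ bad ((l.map (fun b => ih b.1 b.2)).foldl sec (toPS (ν ξ.1))) := by
    intro a ih
    have : Countable (Iio a) := (countable_Iio a).to_subtype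
    have hm : IsMeagre (⋃ p : Iio a × List (Iio a),
        bad ((p.2.map (fun b => ih b.1 b.2)).foldl sec (toPS (ν p.1.1)))) :=
      isMeagre_iUnion fun p => isMeagre_bad _
    have hr := inter_mem hC hm
    obtain ⟨x, hxC, hx⟩ := (dense_of_mem_residual hr).nonempty
    refine ⟨x, hxC, fun ξ l hc => hx ?_⟩
    exact mem_iUnion.mpr ⟨(ξ, l), hc⟩
  choose G hG1 hG2 using hex
  let e : I → X := (wellFounded_lt (α := I)).fix G
  have he : ∀ a, e a = G a (fun b _ => e b) := fun a => (wellFounded_lt (α := I)).fix_eq G a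
  refine ⟨e, fun a => ?_, fun a ξ hξ l hl => ?_⟩
  · rw [he]; exact hG1 _ _
  · rw [he a]
    have h := hG2 a (fun b _ => e b) ⟨ξ, hξ⟩ (l.attachWith (· < a) hl)
    have h2 : (l.attachWith (· < a) hl).map (fun b : Iio a => e b.1) = l.map e := by
      have : (l.attachWith (· < a) hl).map (fun b : Iio a => e b.1)
          = ((l.attachWith (· < a) hl).map Subtype.val).map e := by
        rw [List.map_map]; rfl
      rw [this, List.attachWith_map_subtype_val]
    rw [h2] at h
    exact h

/-- Genericity for strictly increasing tuples of indices. -/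
theorem gen_strict {ν : I → CS} {e : I → X}
    (he : ∀ a ξ : I, ξ < a → ∀ l : List I, (∀ b ∈ l, b < a) →
        e a ∉ bad ((l.map e).foldl sec (toPS (ν ξ)))) :
    ∀ (m : ℕ) (N : Set (Fin m → X)), Nd ⟨m, N⟩ → ∀ (ξ : I) (l : List I),
      (⟨m, N⟩ : PS) = (l.map e).foldl sec (toPS (ν ξ)) →
      ∀ τ : Fin m → I, StrictMono τ → (∀ i, ξ < τ i) → (∀ i, ∀ b ∈ l, b < τ i) →
        (fun i => e (τ i)) ∉ N := by
  intro m
  induction m with
  | zero =>
    intro N hN ξ l _ τ _ _ _ hmem
    have huniv : N = univ := by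
      apply eq_univ_of_forall
      intro y
      rwa [Subsingleton.elim y (fun i => e (τ i))]
    have := hN.2
    simp only [huniv, interior_univ] at this
    exact univ_nonempty.ne_empty this
  | succ m ih =>
    intro N hN ξ l hl τ hτ hξ hb hmem
    have h1 := he (τ 0) ξ (hξ 0) l (hb 0)
    rw [← hl] at h1
    have h2 : Nd (sec ⟨m + 1, N⟩ (e (τ 0))) := by
      by_contra hc
      exact h1 ⟨hN, hc⟩
    refine ih {y | (Fin.cons (e (τ 0)) y : Fin (m + 1) → X) ∈ N} h2 ξ (l ++ [τ 0]) ?_
      (fun i => τ i.succ) (fun i j hij => hτ (Fin.succ_lt_succ_iff.mpr hij)) (fun i => hξ _) ?_ ?_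
    · rw [List.map_append, List.foldl_append, ← hl]
      rfl
    · intro i b hbm
      rcases List.mem_append.mp hbm with hbm | hbm
      · exact hb _ b hbm
      · rw [List.mem_singleton.mp hbm]
        exact hτ (Fin.succ_pos i)
    · simp only [mem_ofPred_eq]
      have : (Fin.cons (e (τ 0)) (fun i => e (τ i.succ)) : Fin (m + 1) → X)
          = fun i => e (τ i) := by
        funext i
        refine Fin.cases ?_ (fun i => ?_) i
        · rfl
        · rfl
      rw [this]
      exact hmem

/-- **Generic sequences** (CH): a sequence of length omega one in a comeagre set, eventually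
avoiding every closed nowhere dense subset of every finite power. -/
theorem exists_generic (CH : Cardinal.continuum.{0} = Cardinal.aleph 1) {C : Set X}
    (hC : C ∈ residual X) :
    ∃ e : I → X, (∀ a, e a ∈ C) ∧ ∀ (m : ℕ) (N : Set (Fin m → X)), IsClosed N →
      interior N = ∅ → ∃ δ : I, ∀ τ : Fin m → I, Function.Injective τ → (∀ i, δ ≤ τ i) →
        (fun i => e (τ i)) ∉ N := by
  obtain ⟨ν, hν⟩ := exists_nu CH
  obtain ⟨e, he1, he2⟩ := exists_gen hC ν
  refine ⟨e, he1, fun m N hcl hint => ?_⟩
  have hperm : ∀ ρ : Equiv.Perm (Fin m), ∃ ξ : I, ν ξ =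
      ⟨m, ⟨{y | (fun i => y (ρ i)) ∈ N}, hcl.preimage
        (continuous_pi fun i => continuous_apply (ρ i))⟩⟩ := fun ρ => hν _
  choose ξ hξ using hperm
  obtain ⟨δ, hδ⟩ := exists_upper (S := range ξ) (countable_range ξ)
  refine ⟨δ, fun τ hτ hδτ hmem => ?_⟩
  set ρ := Tuple.sort τ with hρ
  have hmono : StrictMono (τ ∘ ρ) :=
    (Tuple.monotone_sort τ).strictMono_of_injective (hτ.comp ρ.injective)
  have hNd : Nd ⟨m, {y : Fin m → X | (fun i => y (ρ⁻¹ i)) ∈ N}⟩ := by
    constructor
    · exact hcl.preimage (continuous_pi fun i => continuous_apply (ρ⁻¹ i))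
    · let h : (Fin m → X) ≃ₜ (Fin m → X) :=
        { toFun := fun y i => y (ρ⁻¹ i)
          invFun := fun y i => y (ρ i)
          left_inv := fun y => by funext i; simp
          right_inv := fun y => by funext i; simp
          continuous_toFun := continuous_pi fun i => continuous_apply (ρ⁻¹ i)
          continuous_invFun := continuous_pi fun i => continuous_apply (ρ i) }
      have hset : {y : Fin m → X | (fun i => y (ρ⁻¹ i)) ∈ N} = h ⁻¹' N := rfl
      simp only [hset]
      rw [← h.preimage_interior, hint, preimage_empty]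
  refine gen_strict he2 m {y : Fin m → X | (fun i => y (ρ⁻¹ i)) ∈ N} hNd (ξ ρ⁻¹) [] ?_
    (τ ∘ ρ) hmono (fun i => ?_) (by simp) ?_
  · simp only [List.map_nil, List.foldl_nil, hξ]
    rfl
  · exact (hδ _ ⟨_, rfl⟩).trans_le (hδτ _)
  · simp only [mem_ofPred_eq]
    have : (fun i => e ((τ ∘ ρ) (ρ⁻¹ i))) = fun i => e (τ i) := by
      funext i
      simp
    rw [this]
    exact hmem

end Pool.Agent.R866.ENT
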