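import Pool.Agent.R866.ENT.Gen

/-! Under CH there is an entangled set of reals which is a homogeneous space. -/

namespace Pool.Agent.R866.ENT

open Filter Topology Set

/-- The comeagre set used. -/
def CC : Set X := {x | ∀ θ : Task, ∀ N : ℕ, ∃ n, N ≤ n ∧ T n = θ ∧ x n = false}

theorem CC_mem : CC ∈ residual X := by
  have h : CC = ⋂ p : Task × ℕ, {x : X | ∃ n, p.2 ≤ n ∧ T n = p.1 ∧ x n = false} := by
    ext x
    simp only [CC, mem_ofPred_eq, mem_iInter, Prod.forall]
  rw [h]
  have hc : Countable (Task × ℕ) := inferInstance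
  refine countable_iInter_mem.mpr fun p => residual_of_dense_open ?_ ?_
  · have : {x : X | ∃ n, p.2 ≤ n ∧ T n = p.1 ∧ x n = false}
        = ⋃ n ∈ {n | p.2 ≤ n ∧ T n = p.1}, (fun x : X => x n) ⁻¹' {false} := by
      ext x
      simp only [mem_ofPred_eq, mem_iUnion, mem_preimage, mem_singleton_iff, exists_prop, and_assoc]
    rw [this]
    exact isOpen_biUnion fun n _ => (isOpen_discrete _).preimage (continuous_apply n)
  · refine (PiNat.isTopologicalBasis_cylinders (fun _ => Bool)).dense_iff.mpr ?_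
    rintro _ ⟨x, k, rfl⟩ _
    obtain ⟨n, hn, hT⟩ := T_spec p.1 (max p.2 k)
    refine ⟨Function.update x n false, ?_, n, (le_max_left _ _).trans hn, hT, by simp⟩
    intro i hi
    have : i ≠ n := by
      have := (le_max_right p.2 k).trans hn
      omega
    rw [Function.update_of_ne this]

theorem exists_bound {ι : Type*} [Finite ι] (f : ι → ℕ) : ∃ M, ∀ i, f i < M := by
  cases nonempty_fintype ι
  exact ⟨Finset.univ.sup f + 1, fun i => Nat.lt_succ_of_le (Finset.le_sup (Finset.mem_univ i))⟩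

/-- Basic neighbourhoods in finite powers. -/
theorem exists_cyl {m : ℕ} {U : Set (Fin m → X)} (hU : IsOpen U) {p : Fin m → X} (hp : p ∈ U) :
    ∃ M : ℕ, ∀ q : Fin m → X, (∀ j, ∀ i < M, q j i = p j i) → q ∈ U := by
  obtain ⟨u, hu, hs⟩ := isOpen_pi_iff'.mp hU p hp
  have h1 : ∀ j, ∃ M : ℕ, ∀ y : X, (∀ i < M, y i = p j i) → y ∈ u j := by
    intro j
    obtain ⟨V, ⟨x, n, rfl⟩, hpV, hVs⟩ :=
      (PiNat.isTopologicalBasis_cylinders (fun _ => Bool)).exists_subset_of_mem_open
        (hu j).2 (hu j).1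
    refine ⟨n, fun y hy => hVs ?_⟩
    intro i hi
    rw [hy i hi]
    exact hpV i hi
  choose M hM using h1
  obtain ⟨M', hM'⟩ := exists_bound M
  refine ⟨M', fun q hq => hs fun j _ => hM j _ fun i hi => hq j i (hi.trans (hM' j))⟩

theorem isOpen_cylP {m : ℕ} (r : Fin m → X) (n : Fin m → ℕ) :
    IsOpen {q : Fin m → X | ∀ j, ∀ i < n j, q j i = r j i} := by
  have : {q : Fin m → X | ∀ j, ∀ i < n j, q j i = r j i}
      = ⋂ j, (fun q : Fin m → X => q j) ⁻¹' (PiNat.cylinder (r j) (n j)) := by
    ext q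
    simp only [mem_ofPred_eq, mem_iInter, mem_preimage, PiNat.mem_cylinder_iff]
  rw [this]
  exact isOpen_iInter_of_finite fun j =>
    (PiNat.isOpen_cylinder _ (r j) (n j)).preimage (continuous_apply j)

/-- The finite difference pattern. -/
theorem exists_finset {x y : X} (h : x =ᶠ[atTop] y) :
    ∃ G : Finset ℕ, ∀ j, x j = xor (y j) (decide (j ∈ G)) := by
  classical
  obtain ⟨N, hN⟩ := eventually_atTop.mp h
  refine ⟨(Finset.range N).filter (fun j => x j ≠ y j), fun j => ?_⟩
  by_cases hj : x j = y j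
  · have : j ∉ (Finset.range N).filter (fun j => x j ≠ y j) := by simp [hj]
    simp [this, hj]
  · have hjN : j < N := by
      by_contra hc
      exact hj (hN j (not_lt.mp hc))
    have : j ∈ (Finset.range N).filter (fun j => x j ≠ y j) := by simp [hj, hjN]
    rw [decide_eq_true this]
    cases hx : x j <;> cases hy : y j <;> simp_all

theorem countable_class (y : X) : {x : X | x =ᶠ[atTop] y}.Countable := by
  have : {x : X | x =ᶠ[atTop] y} ⊆
      range (fun G : Finset ℕ => (fun j => xor (y j) (decide (j ∈ G)) : X)) := by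
    intro x hx
    obtain ⟨G, hG⟩ := exists_finset hx
    exact ⟨G, (funext hG).symm⟩
  exact (countable_range _).mono this

/-- Pattern of coincidences of a finite tuple. -/
theorem exists_pattern {k : ℕ} (α : Fin k → I) :
    ∃ c : Σ m : ℕ, (Fin k → Fin m), Function.Surjective c.2 ∧
      ∀ i i', α i = α i' ↔ c.2 i = c.2 i' := by
  classical
  have hf : Finite (range α) := inferInstance
  obtain ⟨m, ⟨E⟩⟩ := Finite.exists_equiv_fin (range α)
  refine ⟨⟨m, fun i => E ⟨α i, i, rfl⟩⟩, ?_, ?_⟩
  · intro j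
    obtain ⟨⟨_, i, rfl⟩, hi⟩ := E.surjective j
    exact ⟨i, hi⟩
  · intro i i'
    simp [Subtype.ext_iff]

theorem pigeon {S : Type*} {F : Set S} (hF : ¬ F.Countable) {c : Type*} [Countable c]
    (f : S → c) : ∃ c0 : c, ¬ {a ∈ F | f a = c0}.Countable := by
  by_contra hc
  push Not at hc
  apply hF
  refine (countable_iUnion hc).mono ?_
  intro a ha
  exact mem_iUnion.mpr ⟨f a, ha, rfl⟩

/-- The main combinatorial statement. -/
theorem entangled_core {e : I → X} (he1 : ∀ a, e a ∈ CC)
    (he2 : ∀ (m : ℕ) (N : Set (Fin m → X)), IsClosed N →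
      interior N = ∅ → ∃ δ : I, ∀ τ : Fin m → I, Function.Injective τ → (∀ i, δ ≤ τ i) →
        (fun i => e (τ i)) ∉ N)
    {k : ℕ} {F : Set (Fin k → ℝ)} (hF : ¬ F.Countable)
    (hFE : ∀ a ∈ F, (∀ i, a i ∈ emb '' {x : X | ∃ α, x =ᶠ[atTop] e α}) ∧ Function.Injective a)
    (hdis : ∀ a ∈ F, ∀ b ∈ F, a ≠ b → ∀ i j, a i ≠ b j) (t : Fin k → Bool) :
    ∃ a ∈ F, ∃ b ∈ F, (0 < k → a ≠ b) ∧ ∀ i, (a i < b i ↔ t i = false) := by
  classical
  -- preimages in the Cantor space
  have hx0 : ∀ a : F, ∀ i, ∃ x : X, ∃ α : I, x =ᶠ[atTop] e α ∧ emb x = a.1 i := by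
    intro a i
    obtain ⟨x, ⟨α, hα⟩, hx⟩ := (hFE a.1 a.2).1 i
    exact ⟨x, α, hα, hx⟩
  choose x α hxα hxa using hx0
  choose G hG using fun (a : F) i => exists_finset (hxα a i)
  choose c hc1 hc2 using fun (a : F) => exists_pattern (α a)
  -- entries are different
  have hxinj : ∀ a : F, Function.Injective (x a) := by
    intro a i i' h
    apply (hFE a.1 a.2).2
    rw [← hxa, ← hxa, h]
  have hxdis : ∀ a b : F, ∀ i, x a i = x b i → a = b := by
    intro a b i h
    by_contra hne
    refine hdis a.1 a.2 b.1 b.2 (fun h' => hne (Subtype.ext h')) i i ?_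
    rw [← hxa, ← hxa, h]
  have hFu : ¬ (univ : Set F).Countable := by
    intro h
    apply hF
    have := h.image (Subtype.val : F → Fin k → ℝ)
    rwa [image_univ, Subtype.range_coe] at this
  obtain ⟨⟨⟨m, q⟩, G0⟩, hF1⟩ := pigeon hFu (fun a : F => (c a, G a))
  set F1 : Set F := {a ∈ univ | (c a, G a) = (⟨m, q⟩, G0)} with hF1d
  have hF1c : ∀ a ∈ F1, c a = ⟨m, q⟩ ∧ G a = G0 := by
    intro a ha
    exact ⟨congrArg Prod.fst ha.2, congrArg Prod.snd ha.2⟩
  have hq : ∀ a ∈ F1, Function.Surjective q ∧ ∀ i i', α a i = α a i' ↔ q i = q i' := by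
    intro a ha
    have h1 := hc1 a
    have h2 := hc2 a
    rw [(hF1c a ha).1] at h1 h2
    exact ⟨h1, h2⟩
  obtain ⟨a00, ha00⟩ : F1.Nonempty := by
    rw [nonempty_iff_ne_empty]
    intro h; rw [h] at hF1; exact hF1 countable_empty
  have hqs : Function.Surjective q := (hq a00 ha00).1
  let s : Fin m → Fin k := Function.surjInv hqs
  have hs : ∀ j, q (s j) = j := Function.surjInv_eq hqs
  -- the generic tuple of indices
  let β : F → Fin m → I := fun a j => α a (s j)
  have hβ : ∀ a ∈ F1, ∀ i, α a i = β a (q i) := by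
    intro a ha i
    exact ((hq a ha).2 _ _).mpr (hs (q i)).symm
  have hβinj : ∀ a ∈ F1, Function.Injective (β a) := by
    intro a ha j j' h
    have := ((hq a ha).2 _ _).mp h
    rwa [hs, hs] at this
  let p : F → Fin m → X := fun a j => e (β a j)
  set D := closure (p '' F1) with hD
  obtain ⟨δ, hδ⟩ := he2 m (frontier D) isClosed_frontier (interior_frontier isClosed_closure)
  -- a member with all indices large
  have hcount : ({a : F | ∃ i, α a i < δ}).Countable := by
    have : {a : F | ∃ i, α a i < δ} ⊆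
        ⋃ i : Fin k, ⋃ b ∈ Iio δ, (fun a : F => x a i) ⁻¹' {z : X | z =ᶠ[atTop] e b} := by
      rintro a ⟨i, hi⟩
      simp only [mem_iUnion]
      exact ⟨i, α a i, hi, hxα a i⟩
    refine (countable_iUnion fun i => (countable_Iio δ).biUnion fun b _ => ?_).mono this
    exact (countable_class (e b)).preimage_of_injOn (fun a _ b _ h => hxdis a b i h)
  obtain ⟨a, ha, haδ⟩ : ∃ a ∈ F1, ∀ i, δ ≤ α a i := by
    by_contra hcon
    push Not at hcon
    exact hF1 (hcount.mono fun a ha => hcon a ha)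
  have hpD : p a ∈ interior D := by
    have h1 : p a ∈ D := subset_closure ⟨a, ha, rfl⟩
    have h2 : p a ∉ frontier D := hδ (β a) (hβinj a ha) (fun j => haδ _)
    by_contra h3
    exact h2 ⟨by rw [isClosed_closure.closure_eq]; exact h1, h3⟩
  -- the level M
  obtain ⟨M1, hM1⟩ := exists_cyl isOpen_interior hpD
  obtain ⟨M2, hM2⟩ := exists_bound (fun i : Fin k => (G0 i).sup id)
  have hne : ∀ ii : {ii : Fin k × Fin k // ii.1 ≠ ii.2}, ∃ n, x a ii.1.1 n ≠ x a ii.1.2 n := by
    rintro ⟨⟨i, i'⟩, h⟩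
    by_contra hcon
    push Not at hcon
    exact h (hxinj a (funext hcon))
  choose d hd using hne
  obtain ⟨M3, hM3⟩ := exists_bound d
  set M := max M1 (max M2 M3) with hM
  let φ : (Fin M → Bool) → Bool := fun w => decide (∃ i, t i = true ∧ ∀ l : Fin M, x a i l = w l)
  have hφ : ∀ i, φ (fun l : Fin M => x a i l) = t i := by
    intro i
    cases ht : t i
    · refine decide_eq_false ?_
      rintro ⟨i', hi', h⟩
      by_cases hii : i' = i
      · rw [hii, ht] at hi'
        exact absurd hi' (by simp)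
      · have h1 := hd ⟨(i', i), hii⟩
        have h2 := hM3 ⟨(i', i), hii⟩
        exact h1 (h ⟨d ⟨(i', i), hii⟩, by omega⟩)
    · exact decide_eq_true ⟨i, ht, fun l => rfl⟩
  have hn : ∀ j : Fin m, ∃ n, M ≤ n ∧ T n = ⟨M, φ⟩ ∧ p a j n = false :=
    fun j => he1 (β a j) ⟨M, φ⟩ M
  choose n hnM hnT hnp using hn
  -- the modified point
  let r : Fin m → X := fun j => Function.update (p a j) (n j) true
  have hr : r ∈ {z : Fin m → X | ∀ j, ∀ i < n j + 1, z j i = r j i} := fun j i _ => rfl
  have hrD : r ∈ interior D := by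
    refine hM1 r fun j i hi => ?_
    have : i ≠ n j := by have := hnM j; omega
    simp only [r]
    rw [Function.update_of_ne this]
  have hrcl : r ∈ closure (p '' F1) := interior_subset hrD
  obtain ⟨_, hzW, b, hb, rfl⟩ := mem_closure_iff.mp hrcl _ (isOpen_cylP r (fun j => n j + 1)) hr
  -- comparison of the two tuples
  have hG0 : ∀ i l, M ≤ l → l ∉ G0 i := by
    intro i l hl hmem
    have h1 := hM2 i
    have h2 : l ≤ (G0 i).sup id := Finset.le_sup (f := id) hmem
    omega
  have hxa' : ∀ i l, x a i l = xor (p a (q i) l) (decide (l ∈ G0 i)) := by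
    intro i l
    rw [hG a i l, (hF1c a ha).2]
    simp only [p]
    rw [← hβ a ha i]
  have hxb' : ∀ i l, x b i l = xor (p b (q i) l) (decide (l ∈ G0 i)) := by
    intro i l
    rw [hG b i l, (hF1c b hb).2]
    simp only [p]
    rw [← hβ b hb i]
  have hag : ∀ i, ∀ l < n (q i), x a i l = x b i l := by
    intro i l hl
    rw [hxa', hxb', hzW (q i) l (by omega)]
    simp only [r]
    rw [Function.update_of_ne (by omega)]
  have han : ∀ i, x a i (n (q i)) = false := by
    intro i
    rw [hxa', hnp, decide_eq_false (hG0 i _ (hnM _))]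
    rfl
  have hbn : ∀ i, x b i (n (q i)) = true := by
    intro i
    rw [hxb', hzW (q i) _ (Nat.lt_succ_self _), decide_eq_false (hG0 i _ (hnM _))]
    simp [r]
  have hdiff : ∀ i, x a i (n (q i)) ≠ x b i (n (q i)) := by
    intro i; rw [han, hbn]; simp
  refine ⟨a.1, a.2, b.1, b.2, ?_, ?_⟩
  · intro hk hab
    have : a = b := Subtype.ext hab
    exact hdiff ⟨0, hk⟩ (by rw [this])
  · intro i
    rw [← hxa, ← hxa, emb_lt_iff (hag i) (hdiff i)]
    have : tw (x a i) (n (q i)) = t i := by
      unfold tw sg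
      rw [han]
      have h1 : (T (n (q i))).1 ≤ n (q i) := by rw [hnT]; exact hnM _
      rw [if_pos h1, Bool.false_xor]
      have h2 : ∀ θ : Task, θ = ⟨M, φ⟩ → θ.2 (fun l => x a i l) = t i := by
        rintro _ rfl
        exact hφ i
      exact h2 _ (hnT _)
    rw [this]

theorem aleph_one_le {e : I → X}
    (he2 : ∀ (m : ℕ) (N : Set (Fin m → X)), IsClosed N →
      interior N = ∅ → ∃ δ : I, ∀ τ : Fin m → I, Function.Injective τ → (∀ i, δ ≤ τ i) →
        (fun i => e (τ i)) ∉ N) :
    Cardinal.aleph 1 ≤ Cardinal.mk (emb '' {x : X | ∃ α, x =ᶠ[atTop] e α} : Set ℝ) := by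
  -- the diagonal is closed and nowhere dense
  have hcl : IsClosed {y : Fin 2 → X | y 0 = y 1} :=
    isClosed_eq (continuous_apply 0) (continuous_apply 1)
  have hint : interior {y : Fin 2 → X | y 0 = y 1} = ∅ := by
    by_contra hne
    obtain ⟨y, hy⟩ := nonempty_iff_ne_empty.mpr hne
    obtain ⟨M, hM⟩ := exists_cyl isOpen_interior hy
    have hsub : interior {y : Fin 2 → X | y 0 = y 1} ⊆ {y : Fin 2 → X | y 0 = y 1} :=
      interior_subset
    have hy0 : y 0 = y 1 := hsub hy
    have h1 := hM (fun j => if j = 0 then y 0 else Function.update (y 1) M (!(y 0 M))) (by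
      intro j i hi
      by_cases hj : j = 0
      · simp [hj]
      · have : j = 1 := by omega
        subst this
        simp [Function.update_of_ne (ne_of_lt hi)])
    have h2 := hsub h1
    have h3 := congrFun h2 M
    simp at h3
  obtain ⟨δ, hδ⟩ := he2 2 _ hcl hint
  have hinj : Function.Injective (fun a : Ici δ => e a.1) := by
    intro a b h
    by_contra hne
    refine hδ ![a.1, b.1] ?_ ?_ ?_
    · intro i j hij
      have h0 : a.1 ≠ b.1 := fun h' => hne (Subtype.ext h')
      fin_cases i <;> fin_cases j <;> simp_all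
    · intro i
      fin_cases i
      · exact a.2
      · exact b.2
    · exact h
  have hI : Cardinal.aleph 1 ≤ Cardinal.mk (Ici δ) := by
    by_contra hc
    rw [not_le, Cardinal.lt_aleph_one_iff, Cardinal.le_aleph0_iff_set_countable] at hc
    apply not_countable_univ
    rw [← Iio_union_Ici (a := δ)]
    exact (countable_Iio δ).union hc
  refine hI.trans ?_
  refine Cardinal.mk_le_of_injective (f := fun a : Ici δ =>
    (⟨emb (e a.1), e a.1, ⟨a.1, EventuallyEq.rfl⟩, rfl⟩ :
      (emb '' {x : X | ∃ α, x =ᶠ[atTop] e α} : Set ℝ))) ?_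
  intro a b h
  exact hinj (emb_injective (congrArg Subtype.val h))

end Pool.Agent.R866.ENT
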